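import Pool.Agent.Lib.MP_ce3cb6_co.Main

set_option autoImplicit false

namespace Pool.Agent.Results.MP_ce3cb6_co.Asymptotic

open Finset

/-- Every `n × n` array with entries in `{0, ..., n}` in which each nonzero symbol occurs in at
most `n - 4 n^(5/6)` cells is avoided by some Latin square. -/
theorem result (n : ℕ) (A : Fin n → Fin n → Fin (n + 1))
    (hA : ∀ s : Fin (n + 1), s ≠ 0 →
      ((Finset.univ.filter (fun p : Fin n × Fin n => A p.1 p.2 = s)).card : ℝ)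
        ≤ (n : ℝ) - 4 * (n : ℝ) ^ ((5 : ℝ) / 6)) :
    ∃ L : Fin n → Fin n → Fin n,
      (∀ i, Function.Injective (L i)) ∧
      (∀ j, Function.Injective (fun i => L i j)) ∧
      (∀ i j, (A i j).val ≠ (L i j).val + 1) := by
  rcases Nat.eq_zero_or_pos n with hn | hn
  · subst hn
    exact ⟨fun i => i.elim0, fun i => i.elim0, fun i => i.elim0, fun i => i.elim0⟩
  obtain ⟨m, rfl⟩ : ∃ m, n = m + 1 := ⟨n - 1, by omega⟩
  obtain ⟨g, hgdef⟩ : ∃ g : ℕ, g = ⌈4 * ((m + 1 : ℕ) : ℝ) ^ ((5 : ℝ) / 6)⌉₊ := ⟨_, rfl⟩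
  have hn0 : (0 : ℝ) ≤ ((m + 1 : ℕ) : ℝ) := by positivity
  have hg : 4096 * Fintype.card (Fin (m + 1)) ^ 5 ≤ g ^ 6 := by
    rw [Fintype.card_fin]
    have h1 : 4 * ((m + 1 : ℕ) : ℝ) ^ ((5 : ℝ) / 6) ≤ g := by
      rw [hgdef]; exact Nat.le_ceil _
    have h2 : (4 * ((m + 1 : ℕ) : ℝ) ^ ((5 : ℝ) / 6)) ^ 6 ≤ (g : ℝ) ^ 6 :=
      pow_le_pow_left₀ (by positivity) h1 6
    have h3 : (4 * ((m + 1 : ℕ) : ℝ) ^ ((5 : ℝ) / 6)) ^ 6 = 4096 * ((m + 1 : ℕ) : ℝ) ^ 5 := by
      rw [mul_pow, ← Real.rpow_natCast (((m + 1 : ℕ) : ℝ) ^ ((5 : ℝ) / 6)) 6,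
        ← Real.rpow_mul hn0]
      norm_num
    rw [h3] at h2
    exact_mod_cast h2
  let F : Fin (m + 1) → Finset (Fin (m + 1) × Fin (m + 1)) := fun s =>
    Finset.univ.filter (fun p => A p.1 p.2 = s.succ)
  have hF : ∀ s, (F s).card + g ≤ Fintype.card (Fin (m + 1)) := by
    intro s
    rw [Fintype.card_fin]
    have h1 := hA s.succ (Fin.succ_ne_zero s)
    have h2 : 4 * ((m + 1 : ℕ) : ℝ) ^ ((5 : ℝ) / 6) ≤ ((m + 1 : ℕ) : ℝ) - ((F s).card : ℝ) := by
      simp only [F]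
      linarith
    have h0 : 0 ≤ 4 * ((m + 1 : ℕ) : ℝ) ^ ((5 : ℝ) / 6) := by positivity
    have h3 : (F s).card ≤ m + 1 := by
      have : ((F s).card : ℝ) ≤ ((m + 1 : ℕ) : ℝ) := by linarith
      exact_mod_cast this
    have h4 : g ≤ m + 1 - (F s).card := by
      rw [hgdef]
      apply Nat.ceil_le.2
      rw [Nat.cast_sub h3]
      exact h2
    omega
  have hdisj : ∀ s s', s ≠ s' → Disjoint (F s) (F s') := by
    intro s s' hne
    rw [Finset.disjoint_left]
    intro p hp hp'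
    simp only [F, Finset.mem_filter, Finset.mem_univ, true_and] at hp hp'
    exact hne (Fin.succ_injective _ (hp.symm.trans hp'))
  obtain ⟨σ, τ, φ, hφ, havoid⟩ :=
    Pool.Agent.Lib.MP_ce3cb6_co.main_group F g hdisj hg hF
  have hbij : Function.Bijective φ := Finite.injective_iff_bijective.1 hφ
  let e : Fin (m + 1) ≃ Fin (m + 1) := Equiv.ofBijective φ hbij
  have he : ∀ s, e s = φ s := fun s => rfl
  refine ⟨fun i j => e.symm (σ i + τ j), ?_, ?_, ?_⟩
  · intro i j j' h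
    exact τ.injective (add_left_cancel (e.symm.injective h))
  · intro j i i' h
    exact σ.injective (add_right_cancel (e.symm.injective h))
  · intro i j h
    have h1 : A i j = (e.symm (σ i + τ j)).succ := by
      apply Fin.ext
      rw [h, Fin.val_succ]
    have h2 : (i, j) ∈ F (e.symm (σ i + τ j)) := by
      simp only [F, Finset.mem_filter, Finset.mem_univ, true_and]
      exact h1
    refine havoid _ _ h2 ?_
    rw [← he, Equiv.apply_symm_apply]

end Pool.Agent.Results.MP_ce3cb6_co.Asymptotic
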