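import Pool.Agent.Lib.MP_ce3cb6_co.LB.Final

set_option autoImplicit false

namespace Pool.Agent.Results.MP_ce3cb6_co.LineBound

open Pool.Agent.Lib.MP_ce3cb6_co.LB

/-- There is a constant `C` such that for all `n ≥ 2` every `n × n` array with entries in `{0, ..., n}` in which each nonzero symbol
occurs at most `n` times in total and at most `n - C log n` times in every row and in every column is avoided by some Latin
square. -/
theorem result : ∃ C : ℝ, 0 < C ∧ ∀ n : ℕ, 2 ≤ n → ∀ A : Fin n → Fin n → Fin (n + 1),
    (∀ s : Fin (n + 1), s ≠ 0 →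
      (Finset.univ.filter (fun p : Fin n × Fin n => A p.1 p.2 = s)).card ≤ n) →
    (∀ s : Fin (n + 1), s ≠ 0 → ∀ i : Fin n,
      ((Finset.univ.filter (fun j : Fin n => A i j = s)).card : ℝ) ≤ n - C * Real.log n) →
    (∀ s : Fin (n + 1), s ≠ 0 → ∀ j : Fin n,
      ((Finset.univ.filter (fun i : Fin n => A i j = s)).card : ℝ) ≤ n - C * Real.log n) →
    ∃ L : Fin n → Fin n → Fin n,
      (∀ i, Function.Injective (L i)) ∧
      (∀ j, Function.Injective (fun i => L i j)) ∧
      (∀ i j, (A i j).val ≠ (L i j).val + 1) := by
  obtain ⟨C, hC, H⟩ := line_bound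
  refine ⟨C, hC, fun n hn A htot hrow hcol => ?_⟩
  let A' : Fin n → Fin n → Option (Fin n) := fun i j => if h : A i j = 0 then none else some ((A i j).pred h)
  have key : ∀ i j a, A' i j = some a ↔ A i j = Fin.succ a := by
    intro i j a
    by_cases h : A i j = 0
    · have e : A' i j = none := dif_pos h
      rw [e, h]
      constructor
      · intro h'; cases h'
      · intro h'; exact absurd h'.symm (Fin.succ_ne_zero a)
    · have e : A' i j = some ((A i j).pred h) := dif_neg h
      rw [e, Option.some_inj]
      constructor
      · intro h'; rw [← h', Fin.succ_pred]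
      · intro h'
        apply Fin.succ_injective
        rw [Fin.succ_pred, h']
  obtain ⟨L, h1, h2, h3⟩ := H n hn A' (fun a => by
      have e : (Finset.univ.filter fun p : Fin n × Fin n => A' p.1 p.2 = some a) =
          Finset.univ.filter (fun p : Fin n × Fin n => A p.1 p.2 = Fin.succ a) :=
        Finset.filter_congr fun p _ => key p.1 p.2 a
      rw [e]
      exact htot _ (Fin.succ_ne_zero a)) (fun a i => by
      have e : (Finset.univ.filter fun j : Fin n => A' i j = some a) =
          Finset.univ.filter (fun j : Fin n => A i j = Fin.succ a) :=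
        Finset.filter_congr fun j _ => key i j a
      rw [e]
      exact hrow _ (Fin.succ_ne_zero a) i) (fun a j => by
      have e : (Finset.univ.filter fun i : Fin n => A' i j = some a) =
          Finset.univ.filter (fun i : Fin n => A i j = Fin.succ a) :=
        Finset.filter_congr fun i _ => key i j a
      rw [e]
      exact hcol _ (Fin.succ_ne_zero a) j)
  refine ⟨L, h1, h2, fun i j h => h3 i j ((key i j _).2 ?_)⟩
  apply Fin.ext
  rw [h, Fin.val_succ]

end Pool.Agent.Results.MP_ce3cb6_co.LineBound
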